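import Pool.Agent.helper61.DP.SpecA

/-!
# Project dp, part A: arms transport alternation (module OT)

`OT : IF, SO, AC, OU, AI, PO, CX → OT_stmt`.
-/

namespace DP

/-- The big set which contains the arms 1, 3 and the outer arc. -/
def OT_W (c : V → Bool) (k : Bool) (x : V) (m n : ℕ) (u₁ u₃ : V) : Set V :=
  {w | (w ∈ ann x m n ∧ c w = k) ∨ onArc x (n + 1) (ou x n u₁) (ou x n u₃) w}

/-- The big set which contains the arms 2, 4 and the exterior. -/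
def OT_W' (c : V → Bool) (k : Bool) (x : V) (m n : ℕ) (u₂ u₄ : V) : Set V :=
  {w | (w ∈ ann x m n ∧ c w = !k) ∨ w = ou x n u₂ ∨ w = ou x n u₄ ∨ n + 2 ≤ sd x w}

theorem OT_onArc_left {x : V} {n : ℕ} {u v : V} (hu : u ∈ bd x n) (hv : v ∈ bd x n) :
    onArc x n u v u := by
  refine ⟨hu, hv, hu, ?_⟩
  split_ifs with h
  · exact ⟨le_rfl, h⟩
  · exact Or.inl le_rfl

theorem OT_aux (hSO : SO_stmt) (hOU : OU_stmt) (hAI : AI_stmt) (hPO : PO_stmt) (hCX : CX_stmt)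
    (c : V → Bool) (k : Bool) (x : V) (m n : ℕ) (hx : Even (x.1 + x.2)) (hm : 1 ≤ m)
    (hmn : m < n) (p₁ p₂ p₃ p₄ u₁ u₂ u₃ u₄ : V) (hp : alt x m p₁ p₂ p₃ p₄)
    (hu₁ : u₁ ∈ bd x n) (hu₂ : u₂ ∈ bd x n) (hu₃ : u₃ ∈ bd x n) (hu₄ : u₄ ∈ bd x n)
    (h₁ : Conn c k (ann x m n) p₁ u₁) (h₂ : Conn c (!k) (ann x m n) p₂ u₂)
    (h₃ : Conn c k (ann x m n) p₃ u₃) (h₄ : Conn c (!k) (ann x m n) p₄ u₄)
    (h13 : u₁ ≠ u₃) (h12 : u₂ ≠ u₁) (h14 : u₄ ≠ u₁) (h32 : u₂ ≠ u₃) (h34 : u₄ ≠ u₃)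
    (ha₂ : ¬ onArc x n u₁ u₃ u₂) (ha₄ : ¬ onArc x n u₁ u₃ u₄) : False := by
  have hn : 1 ≤ n := by omega
  obtain ⟨hOU1, hOU2, -⟩ := hOU
  obtain ⟨-, -, -, hPO4⟩ := hPO
  obtain ⟨-, hCX2, -, hCX4⟩ := hCX
  obtain ⟨ho₁, hA₁⟩ := hOU1 x n u₁ hx hn hu₁
  obtain ⟨ho₂, hA₂⟩ := hOU1 x n u₂ hx hn hu₂
  obtain ⟨ho₃, hA₃⟩ := hOU1 x n u₃ hx hn hu₃
  obtain ⟨ho₄, hA₄⟩ := hOU1 x n u₄ hx hn hu₄
  have hb₂ : ¬ onArc x (n + 1) (ou x n u₁) (ou x n u₃) (ou x n u₂) := fun h =>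
    ha₂ ((hOU2 x n u₁ u₃ u₂ hn hu₁ hu₃ hu₂ h12 h32 h13).2 h)
  have hb₄ : ¬ onArc x (n + 1) (ou x n u₁) (ou x n u₃) (ou x n u₄) := fun h =>
    ha₄ ((hOU2 x n u₁ u₃ u₄ hn hu₁ hu₃ hu₄ h14 h34 h13).2 h)
  -- the first set
  have hW : OT_W c k x m n u₁ u₃ ⊆ {v | m ≤ sd x v} := by
    rintro w (⟨hw, -⟩ | hw)
    · exact hw.1
    · have := hw.2.2.1
      simp only [bd, Set.mem_setOf_eq] at this ⊢
      omega
  have hW' : OT_W' c k x m n u₂ u₄ ⊆ {v | m ≤ sd x v} := by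
    rintro w (⟨hw, -⟩ | rfl | rfl | hw)
    · exact hw.1
    · simp only [bd, Set.mem_setOf_eq] at ho₂ ⊢
      omega
    · simp only [bd, Set.mem_setOf_eq] at ho₄ ⊢
      omega
    · simp only [Set.mem_setOf_eq]
      omega
  have harc : Con (OT_W c k x m n u₁ u₃) (ou x n u₁) (ou x n u₃) := by
    refine hAI x (n + 1) (ou x n u₁) (ou x n u₃)
      (fun w => Con (OT_W c k x m n u₁ u₃) (ou x n u₁) w) (by omega) ho₁ ho₃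
      (Con.refl (Or.inr (OT_onArc_left ho₁ ho₃))) ?_
    intro a b hab _ _ _ hb hP
    exact Con.tail hP (hPO4 x (n + 1) a b (by omega) hab) (Or.inr hb)
  have hC : Con (OT_W c k x m n u₁ u₃) p₁ p₃ := by
    have e₁ : Con (OT_W c k x m n u₁ u₃) p₁ u₁ := Con.mono (fun w hw => Or.inl hw) h₁
    have e₃ : Con (OT_W c k x m n u₁ u₃) p₃ u₃ := Con.mono (fun w hw => Or.inl hw) h₃
    have e₅ : Con (OT_W c k x m n u₁ u₃) u₁ (ou x n u₁) :=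
      Con.single e₁.mem_right hA₁ harc.mem_left
    have e₆ : Con (OT_W c k x m n u₁ u₃) u₃ (ou x n u₃) :=
      Con.single e₃.mem_right hA₃ harc.mem_right
    exact (e₁.trans e₅).trans (harc.trans (e₃.trans e₆).symm)
  have hC' : Con (OT_W' c k x m n u₂ u₄) p₂ p₄ := by
    have e₂ : Con (OT_W' c k x m n u₂ u₄) p₂ u₂ := Con.mono (fun w hw => Or.inl hw) h₂
    have e₄ : Con (OT_W' c k x m n u₂ u₄) p₄ u₄ := Con.mono (fun w hw => Or.inl hw) h₄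
    have f₂ : ou x n u₂ ∈ OT_W' c k x m n u₂ u₄ := Or.inr (Or.inl rfl)
    have f₄ : ou x n u₄ ∈ OT_W' c k x m n u₂ u₄ := Or.inr (Or.inr (Or.inl rfl))
    obtain ⟨z₂, hz₂, hz₂'⟩ := hCX4 x (n + 1) (ou x n u₂) hx ho₂
    obtain ⟨z₄, hz₄, hz₄'⟩ := hCX4 x (n + 1) (ou x n u₄) hx ho₄
    have g₂ : n + 2 ≤ sd x z₂ := by
      simp only [bd, Set.mem_setOf_eq] at hz₂
      omega
    have g₄ : n + 2 ≤ sd x z₄ := by
      simp only [bd, Set.mem_setOf_eq] at hz₄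
      omega
    have e₀ : Con (OT_W' c k x m n u₂ u₄) z₂ z₄ :=
      Con.mono (fun w hw => Or.inr (Or.inr (Or.inr hw))) (hCX2 x (n + 2) z₂ z₄ (by omega) g₂ g₄)
    have i₂ : Con (OT_W' c k x m n u₂ u₄) p₂ z₂ :=
      Con.tail (Con.tail e₂ hA₂ f₂) hz₂' (Or.inr (Or.inr (Or.inr g₂)))
    have i₄ : Con (OT_W' c k x m n u₂ u₄) p₄ z₄ :=
      Con.tail (Con.tail e₄ hA₄ f₄) hz₄' (Or.inr (Or.inr (Or.inr g₄)))
    exact i₂.trans (e₀.trans i₄.symm)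
  obtain ⟨w, hw, hw'⟩ := hSO x m p₁ p₂ p₃ p₄ _ _ hx hm hp hW hW' hC hC'
  rcases hw with ⟨hw1, hw2⟩ | hw
  · have hle : sd x w ≤ n := hw1.2
    rcases hw' with ⟨-, hw3⟩ | rfl | rfl | hw3
    · rw [hw2] at hw3
      cases k <;> simp at hw3
    · simp only [bd, Set.mem_setOf_eq] at ho₂
      omega
    · simp only [bd, Set.mem_setOf_eq] at ho₄
      omega
    · omega
  · have hsd : sd x w = n + 1 := hw.2.2.1
    rcases hw' with ⟨hw3, -⟩ | rfl | rfl | hw3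
    · have hle : sd x w ≤ n := hw3.2
      omega
    · exact hb₂ hw
    · exact hb₄ hw
    · omega

/-- OT: arms transport alternation from the inner to the outer circle. -/
theorem OT (hIF : IF_stmt) (hSO : SO_stmt) (hAC : AC_stmt) (hOU : OU_stmt) (hAI : AI_stmt)
    (hPO : PO_stmt) (hCX : CX_stmt) : OT_stmt := by
  intro c k x m n hx hm hmn p₁ p₂ p₃ p₄ u₁ u₂ u₃ u₄ hp hc₁ hc₂ hc₃ hc₄ hu₁ hu₂ hu₃ hu₄ h₁ h₂ h₃ h₄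
  obtain ⟨-, -, hAC3, hAC4, hAC5⟩ := hAC
  obtain ⟨hb₁, hb₂, hb₃, hb₄⟩ := hp.1
  have hi₁ : inX c x m n p₁ := ⟨hb₁, u₁, hu₁, by rw [hc₁]; exact h₁⟩
  have hi₂ : inX c x m n p₂ := ⟨hb₂, u₂, hu₂, by rw [hc₂]; exact h₂⟩
  have hi₃ : inX c x m n p₃ := ⟨hb₃, u₃, hu₃, by rw [hc₃]; exact h₃⟩
  have hi₄ : inX c x m n p₄ := ⟨hb₄, u₄, hu₄, by rw [hc₄]; exact h₄⟩
  have k₁ : c u₁ = k := h₁.colour_right
  have k₂ : c u₂ = !k := h₂.colour_right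
  have k₃ : c u₃ = k := h₃.colour_right
  have k₄ : c u₄ = !k := h₄.colour_right
  have hkk : ∀ u v : V, c u = k → c v = !k → v ≠ u := by
    rintro u v hu hv rfl
    rw [hu] at hv
    cases k <;> simp at hv
  have n12 : u₂ ≠ u₁ := hkk u₁ u₂ k₁ k₂
  have n14 : u₄ ≠ u₁ := hkk u₁ u₄ k₁ k₄
  have n32 : u₂ ≠ u₃ := hkk u₃ u₂ k₃ k₂
  have n34 : u₄ ≠ u₃ := hkk u₃ u₄ k₃ k₄
  have n13 : u₁ ≠ u₃ := by
    intro h
    refine hIF c k x m n hx hm hmn p₁ p₂ p₃ p₄ hp hc₁ hc₂ hc₃ hc₄ hi₁ hi₂ hi₃ hi₄ ?_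
    rw [h] at h₁
    exact h₁.trans h₃.symm
  have n24 : u₂ ≠ u₄ := by
    intro h
    refine hIF c (!k) x m n hx hm hmn p₂ p₃ p₄ p₁ (hAC3 x m p₁ p₂ p₃ p₄ hm hp) hc₂
      (by rw [hc₃, Bool.not_not]) hc₄ (by rw [hc₁, Bool.not_not]) hi₂ hi₃ hi₄ hi₁ ?_
    rw [h] at h₂
    exact h₂.trans h₄.symm
  have hnd : [u₁, u₂, u₃, u₄].Nodup := by
    simp [n12.symm, n14.symm, n32, n34.symm, n13, n24]
  by_contra hna
  rcases hAC5 x n u₁ u₂ u₃ u₄ (by omega) hu₁ hu₂ hu₃ hu₄ hnd hna with ⟨ha₂, ha₄⟩ | ⟨ha₂, ha₄⟩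
  · exact OT_aux hSO hOU hAI hPO hCX c k x m n hx hm hmn p₁ p₂ p₃ p₄ u₁ u₂ u₃ u₄ hp hu₁ hu₂ hu₃ hu₄
      h₁ h₂ h₃ h₄ n13 n12 n14 n32 n34 ha₂ ha₄
  · exact OT_aux hSO hOU hAI hPO hCX c k x m n hx hm hmn p₃ p₂ p₁ p₄ u₃ u₂ u₁ u₄
      (hAC4 x m p₁ p₂ p₃ p₄ hm hp) hu₃ hu₂ hu₁ hu₄ h₃ h₂ h₁ h₄ n13.symm n32 n34 n12 n14 ha₂ ha₄

end DP
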