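import Pool.Agent.helper61.DP.SpecC

/-!
# Project dp, part C: crossing events are local and monotone (module RLM)
-/

namespace DP

theorem RLM_finite (a b d e : ℤ) : (rect a b d e).Finite := by
  have : rect a b d e ⊆ (Set.Icc a b) ×ˢ (Set.Icc d e) := by
    intro v hv
    obtain ⟨h1, h2, h3, h4⟩ := hv
    exact ⟨⟨h1, h2⟩, ⟨h3, h4⟩⟩
  exact ((Set.finite_Icc a b).prod (Set.finite_Icc d e)).subset this

/-- RLM: crossing events are local and monotone. -/
theorem RLM : RLM_stmt := by
  intro k a b d e
  refine ⟨?_, ?_, ?_, ?_⟩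
  · refine Loc.ev (RLM_finite a b d e) fun c c' h => ?_
    unfold hcross
    exact exists_congr fun u => exists_congr fun v => and_congr_right fun _ =>
      and_congr_right fun _ => Conn.congr h
  · refine Loc.ev (RLM_finite a b d e) fun c c' h => ?_
    unfold vcross
    exact exists_congr fun u => exists_congr fun v => and_congr_right fun _ =>
      and_congr_right fun _ => Conn.congr h
  · refine Mon.ev fun c c' h => ?_
    rintro ⟨u, v, hu, hv, huv⟩
    exact ⟨u, v, hu, hv, Conn.colour_mono (fun w _ => h w) huv⟩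
  · refine Mon.ev fun c c' h => ?_
    rintro ⟨u, v, hu, hv, huv⟩
    exact ⟨u, v, hu, hv, Conn.colour_mono (fun w _ => h w) huv⟩

end DP
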