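import Pool.Agent.helper96.DP.SpecD

/-!
# Module D2: the third arm costs a one-arm probability
-/

namespace DP

open MeasureTheory

theorem D2_prob : IsProbabilityMeasure P1 := by
  unfold P1; infer_instance

theorem D2_mono {F G : Set (V → Bool)} (h : F ⊆ G) : Pr F ≤ Pr G := by
  have := D2_prob
  unfold Pr
  exact measureReal_mono h (measure_ne_top _ _)

theorem D2_nonneg (F : Set (V → Bool)) : 0 ≤ Pr F := measureReal_nonneg

theorem D2_con_mono {W W' : Set V} (h : W ⊆ W') {u v : V} (hc : Con W u v) : Con W' u v :=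
  ⟨h hc.1, Relation.ReflTransGen.mono (r := fun a b => Adj a b ∧ b ∈ W)
    (p := fun a b => Adj a b ∧ b ∈ W') (fun _ _ hab => ⟨hab.1, h hab.2⟩) u v hc.2⟩

theorem D2_con {W : Set V} : ∀ (l : List V) (u v : V), IsPath W l u v → Con W u v
  | [], u, v, h => by
      have := h.1
      simp at this
  | [x], u, v, h => by
      obtain ⟨h1, h2, _, h4⟩ := h
      have e1 : x = u := by simpa using h1
      have e2 : x = v := by simpa using h2
      subst e1
      subst e2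
      exact ⟨h4 _ (by simp), .refl⟩
  | x :: y :: l, u, v, h => by
      obtain ⟨h1, h2, h3, h4⟩ := h
      have e1 : x = u := by simpa using h1
      subst e1
      rw [List.isChain_cons_cons] at h3
      have hy : Con W y v := D2_con (y :: l) y v
        ⟨rfl, by rw [← h2]; simp [List.getLast?_cons_cons], h3.2, fun w hw => h4 w (by simp at hw ⊢; tauto)⟩
      exact ⟨h4 _ (by simp), Relation.ReflTransGen.head ⟨h3.1, hy.1⟩ hy.2⟩

/-- The square box as a finset. -/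
noncomputable def D2_bx (b : V) (R : ℕ) : Finset V :=
  (Finset.Icc (b.1 - R) (b.1 + R)) ×ˢ (Finset.Icc (b.2 - R) (b.2 + R))

theorem D2_mem_bx {b v : V} {R : ℕ} (h : sd b v ≤ R) : v ∈ D2_bx b R := by
  unfold sd at h
  have h1 : (b.1 - v.1).natAbs ≤ R := le_trans (le_max_left _ _) h
  have h2 : (b.2 - v.2).natAbs ≤ R := le_trans (le_max_right _ _) h
  simp only [D2_bx, Finset.mem_product, Finset.mem_Icc]
  omega

theorem D2_col_congr {b b' : V → Bool} {v : V} (h : b v = b' v) : col b v = col b' v := by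
  unfold col
  split_ifs <;> simp_all

theorem D2 (hB : Bbk_stmt) : D2_stmt := by
  intro k G r R a b hG hab hrR
  set Λ : Finset V := D2_bx b R with hΛ
  have hGΛ : ∀ v ∈ G, v ∈ Λ := fun v hv => D2_mem_bx (hG hv)
  set I : Set (V → Bool) := Ev fun c => ∃ z, sd b z = R ∧ Conn c (!k) G b z with hI
  set D : Set (Finset V) := {K | ∃ (l : List V) (z : V), sd b z = R ∧ IsPath G l a z ∧
    K = l.toFinset} with hD
  set D' : Set (Finset V) := {K | ∃ (l : List V) (w z : V), sd b w = r ∧ sd b z = R ∧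
    IsPath G l w z ∧ K = l.toFinset} with hD'
  have hDΛ : ∀ K ∈ D, K ⊆ Λ := by
    rintro K ⟨l, z, _, hl, rfl⟩ v hv
    exact hGΛ v (hl.2.2.2 v (by simpa using hv))
  have hDΛ' : ∀ K ∈ D', K ⊆ Λ := by
    rintro K ⟨l, w, z, _, _, hl, rfl⟩ v hv
    exact hGΛ v (hl.2.2.2 v (by simpa using hv))
  have hLoc : Loc I (Λ : Set V) := by
    refine ⟨Λ, subset_rfl, ?_⟩
    have key : ∀ b₁ b₂ : V → Bool, (∀ v ∈ (Λ : Set V), b₁ v = b₂ v) → b₁ ∈ I → b₂ ∈ I := by
      intro b₁ b₂ h hm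
      obtain ⟨z, hz, hc⟩ := hm
      refine ⟨z, hz, D2_con_mono ?_ hc⟩
      rintro w ⟨hw, hcw⟩
      exact ⟨hw, by rw [← D2_col_congr (h w (by exact_mod_cast hGΛ w hw))]; exact hcw⟩
    intro b₁ b₂ h
    exact ⟨key b₁ b₂ h, key b₂ b₁ fun v hv => (h v hv).symm⟩
  have hMon : Mon (!k) I := by
    intro b₁ b₂ h hm
    obtain ⟨z, hz, hc⟩ := hm
    refine ⟨z, hz, D2_con_mono ?_ hc⟩
    rintro w ⟨hw, hcw⟩
    refine ⟨hw, ?_⟩
    have := h w
    unfold col at hcw ⊢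
    split_ifs at hcw ⊢ <;> simp_all
  have h1 := hB k Λ D D' I hDΛ hDΛ' hLoc hMon
  have hpath : ∀ (c : V → Bool) (l : List V) (u v : V), IsPath G l u v →
      (∀ w ∈ l.toFinset, c w = k) → IsPath {w | w ∈ G ∧ c w = k} l u v := by
    intro c l u v hl hc
    exact ⟨hl.1, hl.2.1, hl.2.2.1, fun w hw => ⟨hl.2.2.2 w hw, hc w (by simpa using hw)⟩⟩
  have hpath' : ∀ (c : V → Bool) (l : List V) (u v : V), IsPath {w | w ∈ G ∧ c w = k} l u v →
      IsPath G l u v ∧ ∀ w ∈ l.toFinset, c w = k := by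
    intro c l u v hl
    exact ⟨⟨hl.1, hl.2.1, hl.2.2.1, fun w hw => (hl.2.2.2 w hw).1⟩,
      fun w hw => (hl.2.2.2 w (by simpa using hw)).2⟩
  refine le_trans (D2_mono ?_) (le_trans h1 (mul_le_mul (D2_mono ?_) (D2_mono ?_)
    (D2_nonneg _) (D2_nonneg _)))
  · intro c hc
    obtain ⟨_, _, ⟨z₀, hz₀, hc₀⟩, l, l', z, w, z', hz, hw, hz', hl, hl', hdis⟩ := hc
    refine ⟨⟨z₀, hz₀, hc₀⟩, l.toFinset, ?_, l'.toFinset, ?_, ?_, ?_, ?_⟩
    · exact ⟨l, z, hz, (hpath' _ _ _ _ hl).1, rfl⟩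
    · exact ⟨l', w, z', hw, hz', (hpath' _ _ _ _ hl').1, rfl⟩
    · rw [Finset.disjoint_left]
      intro v hv hv'
      exact hdis (by simpa using hv) (by simpa using hv')
    · exact (hpath' _ _ _ _ hl).2
    · exact (hpath' _ _ _ _ hl').2
  · rintro c ⟨⟨z₀, hz₀, hc₀⟩, K, ⟨l, z, hz, hl, rfl⟩, hK⟩
    have hcon : Con {w | w ∈ G ∧ col c w = k} a z := D2_con l a z (hpath _ _ _ _ hl hK)
    have hca : col c a = k := hcon.1.2
    have hcb : col c b = !k := hc₀.1.2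
    refine ⟨?_, ⟨z, hz, ?_⟩, ⟨z₀, hz₀, ?_⟩⟩
    · rw [hca, hcb]; cases k <;> decide
    · rw [hca]; exact hcon
    · rw [hcb]; exact hc₀
  · rintro c ⟨L, ⟨l, w, z, hw, hz, hl, rfl⟩, hL⟩
    refine ⟨w, z, hw.le, hz.ge, D2_con_mono ?_ (D2_con l w z (hpath _ _ _ _ hl hL))⟩
    rintro v ⟨_, hv⟩
    exact ⟨Set.mem_univ _, hv⟩

end DP
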