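import Pool.Agent.helper61.DP.SpecA

/-!
# Project dp, part A: Hex (module HX)

`HX : EX_stmt → HX_stmt`.
-/

namespace DP

theorem HX_finite (a b d e : ℤ) : (rect a b d e).Finite := by
  have : rect a b d e ⊆ (Set.Icc a b) ×ˢ (Set.Icc d e) := by
    intro v hv
    obtain ⟨h1, h2, h3, h4⟩ := hv
    exact ⟨⟨h1, h2⟩, ⟨h3, h4⟩⟩
  exact ((Set.finite_Icc a b).prod (Set.finite_Icc d e)).subset this

/-- Sets of revealed sites. -/
def HX_good (c : V → Bool) (a b d e : ℤ) (X : Set V) : Prop :=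
  X ⊆ rect a b d e ∧
    (∀ v ∈ X, c v = true → ∃ u, u.1 = a ∧ Conn c true X v u) ∧
    (∀ v ∈ X, c v = false → ∃ u, u.2 = d ∧ Conn c false X v u)

theorem HX_mono {c : V → Bool} {k : Bool} {R R' : Set V} {u v : V} (h : Conn c k R u v)
    (hR : R ⊆ R') : Conn c k R' u v :=
  Conn.mono hR h

theorem HX_exists_maximal (c : V → Bool) (a b d e : ℤ) :
    ∃ X, HX_good c a b d e X ∧ ∀ Y, HX_good c a b d e Y → X ⊆ Y → Y ⊆ X := by
  have hfin : {X | HX_good c a b d e X}.Finite :=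
    (HX_finite a b d e).finite_subsets.subset fun X hX => hX.1
  have hne : {X | HX_good c a b d e X}.Nonempty :=
    ⟨∅, by simp [HX_good]⟩
  obtain ⟨X, hX⟩ := hfin.exists_maximal hne
  exact ⟨X, hX.1, fun Y hY hXY => hX.2 hY hXY⟩

theorem HX_insert_true {c : V → Bool} {a : ℤ} {X : Set V} {w : V} (hc : c w = true)
    (h : w.1 = a ∨ ∃ v ∈ X, c v = true ∧ Adj v w)
    (hX : ∀ v ∈ X, c v = true → ∃ u, u.1 = a ∧ Conn c true X v u) :
    ∃ u, u.1 = a ∧ Conn c true (insert w X) w u := by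
  rcases h with h | ⟨v, hv, hcv, hvw⟩
  · exact ⟨w, h, Con.refl ⟨Set.mem_insert _ _, hc⟩⟩
  · obtain ⟨u, hu, hvu⟩ := hX v hv hcv
    have h1 : Conn c true (insert w X) v u := HX_mono hvu (Set.subset_insert _ _)
    exact ⟨u, hu, Con.trans (Con.single ⟨Set.mem_insert _ _, hc⟩ hvw.symm h1.1) h1⟩

theorem HX_insert_false {c : V → Bool} {d : ℤ} {X : Set V} {w : V} (hc : c w = false)
    (h : w.2 = d ∨ ∃ v ∈ X, c v = false ∧ Adj v w)
    (hX : ∀ v ∈ X, c v = false → ∃ u, u.2 = d ∧ Conn c false X v u) :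
    ∃ u, u.2 = d ∧ Conn c false (insert w X) w u := by
  rcases h with h | ⟨v, hv, hcv, hvw⟩
  · exact ⟨w, h, Con.refl ⟨Set.mem_insert _ _, hc⟩⟩
  · obtain ⟨u, hu, hvu⟩ := hX v hv hcv
    have h1 : Conn c false (insert w X) v u := HX_mono hvu (Set.subset_insert _ _)
    exact ⟨u, hu, Con.trans (Con.single ⟨Set.mem_insert _ _, hc⟩ hvw.symm h1.1) h1⟩

theorem HX_main (hEX : EX_stmt) (c : V → Bool) (a b d e : ℤ) (hab : a ≤ b) (hde : d ≤ e) :
    hcross c true a b d e ∨ vcross c false a b d e := by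
  obtain ⟨X, ⟨hX1, hX2, hX3⟩, hmax⟩ := HX_exists_maximal c a b d e
  rcases hEX c a b d e X hab hde hX1 hX2 hX3 with ⟨v, hv, hcv, hvb⟩ | ⟨v, hv, hcv, hve⟩ |
    ⟨w, hw, hwX, h1, h2⟩
  · obtain ⟨u, hu, hvu⟩ := hX2 v hv hcv
    exact Or.inl ⟨u, v, hu, hvb, (HX_mono hvu hX1).symm⟩
  · obtain ⟨u, hu, hvu⟩ := hX3 v hv hcv
    exact Or.inr ⟨u, v, hu, hve, (HX_mono hvu hX1).symm⟩
  · exfalso
    have hgood : HX_good c a b d e (insert w X) := by
      refine ⟨Set.insert_subset hw hX1, ?_, ?_⟩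
      · intro v hv hcv
        rcases Set.mem_insert_iff.1 hv with rfl | hv
        · exact HX_insert_true hcv h1 hX2
        · obtain ⟨u, hu, hvu⟩ := hX2 v hv hcv
          exact ⟨u, hu, HX_mono hvu (Set.subset_insert _ _)⟩
      · intro v hv hcv
        rcases Set.mem_insert_iff.1 hv with rfl | hv
        · exact HX_insert_false hcv h2 hX3
        · obtain ⟨u, hu, hvu⟩ := hX3 v hv hcv
          exact ⟨u, hu, HX_mono hvu (Set.subset_insert _ _)⟩
    exact hwX (hmax _ hgood (Set.subset_insert _ _) (Set.mem_insert _ _))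

theorem HX_flip {c : V → Bool} {k : Bool} {R : Set V} {u v : V}
    (h : Conn (fun v => !(c v)) k R u v) : Conn c (!k) R u v := by
  refine Con.mono ?_ h
  rintro w ⟨hw1, hw2⟩
  refine ⟨hw1, ?_⟩
  simp only at hw2
  rw [← hw2, Bool.not_not]

/-- HX: Hex for the rectangle. -/
theorem HX (hEX : EX_stmt) : HX_stmt := by
  intro c k a b d e hab hde
  cases k with
  | true => exact HX_main hEX c a b d e hab hde
  | false =>
    rcases HX_main hEX (fun v => !(c v)) a b d e hab hde with ⟨u, v, hu, hv, h⟩ | ⟨u, v, hu, hv, h⟩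
    · exact Or.inl ⟨u, v, hu, hv, HX_flip h⟩
    · exact Or.inr ⟨u, v, hu, hv, HX_flip h⟩

end DP
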